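import Pool.Agent.helper4.QX.SpecF

/-! Row qf:EDN (MP_07c750_an): approximation of continuous invariant functions by Lipschitz functions -/

set_option autoImplicit false

open scoped MatrixGroups ContDiff Topology UpperHalfPlane
open UpperHalfPlane MeasureTheory ProbabilityTheory Filter Set Polynomial
open Pool.Agent.QU Pool.Agent.RP

namespace Pool.Agent.QX

theorem EDN (hBMP : BMP_stmt) (hLIQ : LIQ_stmt) : EDN_stmt := by
  intro Γ F h hΓ hF hh ε hε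
  obtain ⟨κ₁, C, hBF⟩ := hBMP
  obtain ⟨A2, hA2, hliq⟩ := hLIQ κ₁ C hBF Γ F hΓ hF
  obtain ⟨⟨m, hm⟩, hu, -, -⟩ := A_BDD Γ F h hΓ hF hh
  have hfam := hBF.fam
  obtain ⟨η₀, hη₀, hap⟩ := (A_APX _ hfam).2 h hu ε hε
  obtain ⟨η, hη⟩ : ∃ η, η = min η₀ 1 := ⟨_, rfl⟩
  have hη0 : 0 < η := by rw [hη]; exact lt_min hη₀ one_pos
  have hη1 : η ≤ 1 := by rw [hη]; exact min_le_right _ _
  have hηe : η ≤ η₀ := by rw [hη]; exact min_le_left _ _
  have hrk : RK (fm κ₁ η) := hfam.rk η hη0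
  obtain ⟨K, hK⟩ := (A_CVB ℝ).2.2.2.2.2.2.1 (fm κ₁ η) hrk
  have hb := hK h m hh.1 (fun z => by rw [Real.norm_eq_abs]; exact hm z)
  have hsec : SecB (1 : Γ →* (ℂ ≃ₗᵢ[ℂ] ℂ)) (fun z => ((h z : ℝ) : ℂ)) := by
    refine ⟨?_, ⟨m, fun z => ?_⟩, fun γ z => ?_⟩
    · exact (Complex.continuous_ofReal.comp hh.1).stronglyMeasurable
    · rw [Complex.norm_real, Real.norm_eq_abs]
      exact hm z
    · rw [hh.2 γ z]
      rfl
  have hcv : ∀ z, conv (fm κ₁ η) (fun z => ((h z : ℝ) : ℂ)) z =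
      ((conv (fm κ₁ η) h z : ℝ) : ℂ) := by
    intro z
    unfold conv
    rw [← integral_complex_ofReal]
    refine integral_congr_ae (Eventually.of_forall fun w => ?_)
    simp
  obtain ⟨S, hS⟩ : ∃ S, S = Real.sqrt (∫ z in F, ‖((h z : ℝ) : ℂ)‖ ^ 2) := ⟨_, rfl⟩
  have hS0 : 0 ≤ S := by rw [hS]; exact Real.sqrt_nonneg _
  have hlq : ∀ z w, dist z w ≤ 1 → |conv (fm κ₁ η) h z - conv (fm κ₁ η) h w| ≤
      A2 / η ^ 2 * S * dist z w := by
    intro z w hzw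
    have h1 := hliq ℂ (1 : Γ →* (ℂ ≃ₗᵢ[ℂ] ℂ)) (fun z => ((h z : ℝ) : ℂ)) η z w hη0 hη1 hsec hzw
    rw [hcv, hcv, ← Complex.ofReal_sub, Complex.norm_real, Real.norm_eq_abs, ← hS] at h1
    linarith
  obtain ⟨T, hT⟩ : ∃ T, T = A2 / η ^ 2 * S := ⟨_, rfl⟩
  have hT0 : 0 ≤ T := by
    rw [hT]
    have : 0 ≤ A2 := by linarith
    positivity
  have hKm : 0 ≤ K * m := (norm_nonneg _).trans (hb (UpperHalfPlane.I))
  refine ⟨T + 2 * (K * m) + 1, conv (fm κ₁ η) h, by linarith, ?_, ?_, ?_⟩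
  · exact (A_CVB ℝ).2.2.2.2.2.2.2 Γ (fm κ₁ η) h hrk hh
  · intro z w
    rcases le_or_gt (dist z w) 1 with hd | hd
    · have h1 := hlq z w hd
      rw [← hT] at h1
      refine h1.trans (mul_le_mul_of_nonneg_right ?_ dist_nonneg)
      linarith
    · have h1 := hb z
      have h2 := hb w
      rw [Real.norm_eq_abs] at h1 h2
      have h3 : |conv (fm κ₁ η) h z - conv (fm κ₁ η) h w| ≤ 2 * (K * m) := by
        have := abs_sub (conv (fm κ₁ η) h z) (conv (fm κ₁ η) h w)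
        linarith
      have h4 : 0 ≤ (T + 2 * (K * m) + 1) * (dist z w - 1) := by
        apply mul_nonneg <;> linarith
      nlinarith
  · intro z
    rw [abs_sub_comm]
    exact hap η hη0 hηe z

end Pool.Agent.QX
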